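import Pool.Agent.H25.DP.Prp
import Pool.Agent.H25.DP.RatC

/-! # DP2.CnX : `P + ι P` is constant (about 150 lines)

`p(u) = P.p + u (P'.p - P.p)`, `z ∈ Om K` with `z² = f(p(t))` (`t = tt K`), the multiset of the two points `(p(t), z)`, `(p(t), -z)` over `Om K` (`p(t) ≠ 0`), stable under the automorphisms over `K(t)` (`σ z = ± z`).  At a place with `t ↦ 0` (`H68.BB.place_exists`): scalar `1`, `p(t)` reduces to `P.p`, `z` is
integral (`z² ∈ V`) and its reduction `z0` satisfies `z0² = f(P.p) = P.z²`, so `z0 = ± P.z`: the multiset specialises to `{P, P.inv}`.  The same at `t ↦ 1` with `P'`. -/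

namespace H25.DP

open H68.BB (Om Place Rd tt)
open H77.AF

private theorem cn_mem {F : Type} [Field F] (V : ValuationSubring F) {z : F} (h : z ^ 2 ∈ V) : z ∈ V := by
  rcases V.mem_or_inv_mem z with h1 | h1
  · exact h1
  · by_cases hz : z = 0
    · rw [hz]; exact V.zero_mem
    · have h2 : z ^ 2 * z⁻¹ ∈ V := V.mul_mem _ _ h h1
      have h3 : z ^ 2 * z⁻¹ = z := by
        rw [pow_two, mul_assoc, mul_inv_cancel₀ hz, mul_one]
      rwa [h3] at h2

/-- a two-point family -/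
private theorem cn_two {K : Type} [Field K] {D : PD K} {P P' : D.Y} {P0 P0' P1 P1' : D.X} {π π' : Place K (Om K)}
    (hσ : ∀ σ, (D.act σ P = P ∧ D.act σ P' = P') ∨ (D.act σ P = P' ∧ D.act σ P' = P))
    (h0 : (D.sp π P P0 ∧ D.sp π P' P0') ∨ (D.sp π P P0' ∧ D.sp π P' P0))
    (h1 : (D.sp π' P P1 ∧ D.sp π' P' P1') ∨ (D.sp π' P P1' ∧ D.sp π' P' P1)) :
    ((Finsupp.single (fun _ => P0) 1 + Finsupp.single (fun _ => P0') 1) -
      (Finsupp.single (fun _ => P1) 1 + Finsupp.single (fun _ => P1') 1) : Cyc D 1) ∈ RatEq D 1 := by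
  have hf : ∀ (ρ : Place K (Om K)) (Q Q' : D.X), ((D.sp ρ P Q ∧ D.sp ρ P' Q') ∨ (D.sp ρ P Q' ∧ D.sp ρ P' Q)) →
      Fibre (D := D) (k := 1) ρ {fun _ => P, fun _ => P'} {fun _ => Q, fun _ => Q'} := by
    intro ρ Q Q' h
    refine ⟨{fun _ => P, fun _ => P'}, 0, (add_zero _).symm, ?_, fun R hR => absurd hR (Multiset.notMem_zero R)⟩
    rcases h with ⟨h5, h6⟩ | ⟨h5, h6⟩
    · exact Multiset.Rel.cons (fun _ => h5) (Multiset.Rel.cons (fun _ => h6) Multiset.Rel.zero)
    · rw [Multiset.pair_comm (fun _ => Q)]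
      exact Multiset.Rel.cons (fun _ => h5) (Multiset.Rel.cons (fun _ => h6) Multiset.Rel.zero)
  refine AddSubgroup.subset_closure ⟨{fun _ => P, fun _ => P'}, π, π', {fun _ => P0, fun _ => P0'},
    {fun _ => P1, fun _ => P1'}, ?_, hf π P0 P0' h0, hf π' P1 P1' h1, ?_⟩
  · intro σ
    rw [Multiset.insert_eq_cons, Multiset.map_cons, Multiset.map_singleton]
    show (fun _ => D.act σ P) ::ₘ {fun _ => D.act σ P'} = _
    rcases hσ σ with ⟨h5, h6⟩ | ⟨h5, h6⟩
    · rw [h5, h6]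
    · rw [h5, h6]
      exact Multiset.pair_comm _ _
  · unfold cyc
    rw [Multiset.insert_eq_cons, Multiset.insert_eq_cons, Multiset.map_cons, Multiset.map_singleton,
      Multiset.sum_cons, Multiset.sum_singleton, Multiset.map_cons, Multiset.map_singleton,
      Multiset.sum_cons, Multiset.sum_singleton]

private theorem cn_sp {K0 : Type} [Field K0] {K : Type} [Field K] [Algebra K0 K] {f : MvPolynomial (Fin 3) K0}
    {π : Place K (Om K)} (Q : XP f (Om K)) (P : XP f K) (hp : ∀ i, Rd π.V π.φ (Q.p i) (P.p i)) :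
    ((xpd K f).sp π Q P ∧ (xpd K f).sp π Q.inv P.inv) ∨ ((xpd K f).sp π Q P.inv ∧ (xpd K f).sp π Q.inv P) := by
  have hc : ∀ c : K0, Rd π.V π.φ (algebraMap K0 (Om K) c) (algebraMap K0 K c) := by
    intro c
    rw [IsScalarTower.algebraMap_apply K0 K (Om K)]
    exact π.const _
  have h1 : Rd π.V π.φ (ev f Q.p) (ev f P.p) := rd_ev hc f hp
  rw [← Q.eq, ← P.eq] at h1
  have hz : Q.z ∈ π.V := cn_mem π.V h1.mem
  have h2 : Rd π.V π.φ Q.z (π.φ ⟨Q.z, hz⟩) := Rd.of_mem hz
  have h3 : (π.φ ⟨Q.z, hz⟩) ^ 2 = P.z ^ 2 := (h2.pow 2).unique h1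
  rcases sq_eq_sq_iff_eq_or_eq_neg.1 h3 with h4 | h4
  · rw [h4] at h2
    refine Or.inl ⟨⟨1, one_ne_zero, fun i => ?_, ?_⟩, ⟨1, one_ne_zero, fun i => ?_, ?_⟩⟩
    · rw [one_mul]; exact hp i
    · rw [one_pow, one_mul]; exact h2
    · rw [one_mul]; exact hp i
    · rw [one_pow, one_mul]; exact h2.neg
  · rw [h4] at h2
    refine Or.inr ⟨⟨1, one_ne_zero, fun i => ?_, ?_⟩, ⟨1, one_ne_zero, fun i => ?_, ?_⟩⟩
    · rw [one_mul]; exact hp i
    · rw [one_pow, one_mul]; exact h2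
    · rw [one_mul]; exact hp i
    · rw [one_pow, one_mul]
      have h5 := h2.neg
      rw [neg_neg] at h5
      exact h5

theorem con {K0 : Type} [Field K0] {K : Type} [Field K] [IsAlgClosed K] [Algebra K0 K] {f : MvPolynomial (Fin 3) K0}
    (P P' : XP f K) :
    ((Finsupp.single (fun _ => P) 1 + Finsupp.single (fun _ => P.inv) 1) -
      (Finsupp.single (fun _ => P') 1 + Finsupp.single (fun _ => P'.inv) 1) : Cyc (xpd K f) 1) ∈ RatEq (xpd K f) 1 := by
  obtain ⟨π, hπ⟩ := H68.BB.place_exists K (0 : K)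
  obtain ⟨π', hπ'⟩ := H68.BB.place_exists K (1 : K)
  have hr : Rd π.V π.φ (tt K) 0 := hπ
  have hr' : Rd π'.V π'.φ (tt K) 1 := hπ'
  have hcst : ∀ (ρ : Place K (Om K)) (c : K), Rd ρ.V ρ.φ (algebraMap K (Om K) c) c := fun ρ c => ρ.const c
  let a : K → Om K := algebraMap K (Om K)
  let p : Fin 3 → Om K := fun i => a (P.p i) + tt K * (a (P'.p i) - a (P.p i))
  have hp : ∀ i, Rd π.V π.φ (p i) (P.p i) := by
    intro i
    have h := (hcst π (P.p i)).add (hr.mul ((hcst π (P'.p i)).sub (hcst π (P.p i))))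
    rw [zero_mul, add_zero] at h
    exact h
  have hp' : ∀ i, Rd π'.V π'.φ (p i) (P'.p i) := by
    intro i
    have h := (hcst π' (P.p i)).add (hr'.mul ((hcst π' (P'.p i)).sub (hcst π' (P.p i))))
    rw [one_mul, add_sub_cancel] at h
    exact h
  obtain ⟨z, hz⟩ := IsAlgClosed.exists_pow_nat_eq (ev f p) (n := 2) (by norm_num)
  have hne : p ≠ 0 := by
    intro h
    apply P.ne
    funext i
    have h1 := hp i
    rw [h] at h1
    exact h1.unique Rd.zero
  let Q : XP f (Om K) := ⟨p, z, hne, hz⟩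
  have hfix : ∀ (σ : Om K ≃ₐ[RatFunc K] Om K) (i : Fin 3), σ (p i) = p i := by
    intro σ i
    have hc : ∀ c : K, σ (a c) = a c := fun c => by
      show σ (algebraMap K (Om K) c) = algebraMap K (Om K) c
      rw [IsScalarTower.algebraMap_apply K (RatFunc K) (Om K), AlgEquiv.commutes]
    have ht : σ (tt K) = tt K := by
      unfold tt
      rw [AlgEquiv.commutes]
    show σ (a (P.p i) + tt K * (a (P'.p i) - a (P.p i))) = _
    rw [map_add, map_mul, map_sub, hc, hc, ht]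
  refine cn_two (D := xpd K f) (P := Q) (P' := Q.inv) (π := π) (π' := π') ?_ (cn_sp Q P hp) (cn_sp Q P' hp')
  intro σ
  have h1 : (σ z) ^ 2 = z ^ 2 := by
    rw [← map_pow, hz]
    have h2 : σ (ev f p) = ev f (fun i => σ (p i)) := ev_map (σ.toAlgHom.restrictScalars K0) f p
    rw [h2]
    congr 1
    funext i
    exact hfix σ i
  rcases sq_eq_sq_iff_eq_or_eq_neg.1 h1 with h4 | h4
  · left
    constructor
    · refine XP.ext ?_ h4
      funext i
      exact hfix σ i
    · refine XP.ext ?_ ?_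
      · funext i
        exact hfix σ i
      · show σ (-z) = -z
        rw [map_neg, h4]
  · right
    constructor
    · refine XP.ext ?_ h4
      funext i
      exact hfix σ i
    · refine XP.ext ?_ ?_
      · funext i
        exact hfix σ i
      · show σ (-z) = z
        rw [map_neg, h4, neg_neg]

end H25.DP
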