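import Pool.Agent.H25.DP2.Def

/-! # DP2.IntY : the affine surface `f(p) = 1` is finite over the plane (MATHLIB only, about 120 lines)

There is `v ∈ K0³` with `f(v) ≠ 0` (`f ≠ 0` because of `Sm f`, `K0` infinite); say `v j ≠ 0`; for the two indices `i ≠ j` let `T, X` be the linear functions `p i - (v i / v j) p j`: `p = (p j / v j) v + (vector with the coordinates T, X and 0)`, and `1 = f(p) = f(v) (p j / v j)^6 + (lower powers of
p j / v j, coefficients in K0[T, X])`, so `p j` is integral over `K0[T, X]` in `YR f`, and so are the other coordinates, which generate `YR f`. -/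

namespace H25.DP

open Polynomial

/-- the top coefficient of `f(X d + e)` -/
private theorem lin_top {K0 : Type} [Field K0] {f : MvPolynomial (Fin 3) K0} {n : ℕ} (hf : f.IsHomogeneous n) {F : Type}
    [CommRing F] [Algebra K0 F] (d e : Fin 3 → F) : (lin f d e).natDegree ≤ n ∧ (lin f d e).coeff n = ev f d := by
  have h1 : ∀ i, (C (d i) * X + C (e i) : F[X]).natDegree ≤ 1 := fun i => natDegree_linear_le
  have h2 : ∀ (i : Fin 3) (m : ℕ), ((C (d i) * X + C (e i) : F[X]) ^ m).natDegree ≤ m := fun i m => by
    refine le_trans natDegree_pow_le ?_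
    exact le_trans (Nat.mul_le_mul_left m (h1 i)) (by rw [mul_one])
  have h3 : ∀ (i : Fin 3) (m : ℕ), ((C (d i) * X + C (e i) : F[X]) ^ m).coeff m = d i ^ m := fun i m => by
    have h4 := coeff_pow_of_natDegree_le (m := m) (h1 i)
    rw [mul_one] at h4
    rw [h4]
    simp
  have h5 : ∀ m ∈ f.support, m 0 + m 1 + m 2 = n := by
    intro m hm
    rw [hf.degree_eq_sum_deg_support hm, ← Fin.sum_univ_three]
    exact (Finset.sum_subset (Finset.subset_univ _) fun i _ hi => Finsupp.notMem_support_iff.1 hi).symm
  unfold lin ev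
  rw [MvPolynomial.aeval_def, MvPolynomial.aeval_def, MvPolynomial.eval₂_eq', MvPolynomial.eval₂_eq']
  constructor
  · refine natDegree_sum_le_of_forall_le _ _ (fun m hm => ?_)
    rw [Polynomial.algebraMap_apply, Fin.prod_univ_three]
    refine le_trans (natDegree_C_mul_le _ _) ?_
    refine le_trans (natDegree_mul_le_of_le (natDegree_mul_le_of_le (h2 0 (m 0)) (h2 1 (m 1))) (h2 2 (m 2))) ?_
    exact (h5 m hm).le
  · rw [finsetSum_coeff]
    refine Finset.sum_congr rfl fun m hm => ?_
    rw [Polynomial.algebraMap_apply, Fin.prod_univ_three, Fin.prod_univ_three, coeff_C_mul]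
    congr 1
    have h6 : ((C (d 0) * X + C (e 0)) ^ m 0 * (C (d 1) * X + C (e 1)) ^ m 1 : F[X]).natDegree ≤ m 0 + m 1 :=
      natDegree_mul_le_of_le (h2 0 (m 0)) (h2 1 (m 1))
    have h7 := coeff_mul_add_eq_of_natDegree_le h6 (h2 2 (m 2))
    rw [coeff_mul_add_eq_of_natDegree_le (h2 0 (m 0)) (h2 1 (m 1)), h3, h3, h3, h5 m hm] at h7
    exact h7

theorem int_y {K0 : Type} [Field K0] [IsAlgClosed K0] {f : MvPolynomial (Fin 3) K0} (hf : Sm f) :
    ∃ T X : YR f, ∀ r : YR f, IsIntegral (Algebra.adjoin K0 ({T, X} : Set (YR f))) r := by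
  classical
  have hf0 : f ≠ 0 := by
    rintro rfl
    refine hf.sm (fun _ => 1) (fun h => one_ne_zero (congrFun h 0)) ?_
    funext i
    simp [grad, ev]
  have hinf : Infinite K0 := IsAlgClosed.instInfinite
  obtain ⟨v, hv⟩ : ∃ v : Fin 3 → K0, MvPolynomial.eval v f ≠ 0 := by
    by_contra h
    push Not at h
    exact hf0 (MvPolynomial.funext fun x => by rw [h x, map_zero])
  have hv1 : ev f v ≠ 0 := by
    unfold ev
    rw [MvPolynomial.aeval_eq_eval]
    exact hv
  obtain ⟨j, hj⟩ : ∃ j, v j ≠ 0 := by
    by_contra h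
    push Not at h
    have h1 := ev_smul hf.hom (0 : K0) v
    have h2 : (fun i => (0 : K0) * v i) = v := by
      funext i
      rw [h i, mul_zero]
    rw [h2, zero_pow (by norm_num), zero_mul] at h1
    exact hv1 h1
  -- coordinates
  set w : YR f := algebraMap K0 (YR f) (v j)⁻¹ * yx f j with hw
  set u : Fin 3 → YR f := fun i => yx f i - algebraMap K0 (YR f) (v i) * w with hu
  have huj : u j = 0 := by
    simp only [hu, hw]
    rw [← mul_assoc, ← map_mul, mul_inv_cancel₀ hj, map_one, one_mul, sub_self]
  -- the other two indices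
  obtain ⟨a, b, hab⟩ : ∃ a b : Fin 3, ∀ i, i = j ∨ i = a ∨ i = b := by
    fin_cases j
    · exact ⟨1, 2, fun i => by fin_cases i <;> simp⟩
    · exact ⟨0, 2, fun i => by fin_cases i <;> simp⟩
    · exact ⟨0, 1, fun i => by fin_cases i <;> simp⟩
  refine ⟨u a, u b, ?_⟩
  set S := Algebra.adjoin K0 ({u a, u b} : Set (YR f)) with hS
  have hmem : ∀ i, u i ∈ S := by
    intro i
    rcases hab i with h | h | h
    · rw [h, huj]; exact zero_mem _
    · rw [h]; exact Algebra.subset_adjoin (Set.mem_insert _ _)
    · rw [h]; exact Algebra.subset_adjoin (Set.mem_insert_of_mem _ rfl)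
  -- the equation of `w`
  set d : Fin 3 → S := fun i => algebraMap K0 S (v i) with hd
  set e : Fin 3 → S := fun i => ⟨u i, hmem i⟩ with he
  obtain ⟨h1, h2⟩ := lin_top hf.hom d e
  have h3 : ev f d = algebraMap K0 S (ev f v) := by
    have := ev_map (Algebra.ofId K0 S) f v
    exact this.symm
  have h4 : Polynomial.aeval w (lin f d e) = 1 := by
    have h5 := MvPolynomial.comp_aeval_apply (f := fun i => C (d i) * Polynomial.X + C (e i))
      (((Polynomial.aeval w : S[X] →ₐ[S] YR f).restrictScalars K0)) f
    have h6 : (Polynomial.aeval w : S[X] →ₐ[S] YR f) (lin f d e) = ev f (fun i => yx f i) := by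
      unfold lin ev
      refine h5.trans ?_
      congr 2
      funext i
      simp only [AlgHom.restrictScalars_apply, map_add, map_mul, Polynomial.aeval_C, Polynomial.aeval_X]
      have h7 : algebraMap S (YR f) (d i) = algebraMap K0 (YR f) (v i) := rfl
      have h8 : algebraMap S (YR f) (e i) = u i := rfl
      rw [h7, h8]
      simp only [hu]
      ring
    rw [h6]
    exact y_ev (AlgHom.id K0 (YR f))
  have hwi : IsIntegral S w := by
    have hc : algebraMap K0 S (ev f v)⁻¹ * (lin f d e - 1).coeff 6 = 1 := by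
      rw [coeff_sub, h2, h3]
      have h9 : (1 : S[X]).coeff 6 = 0 := by
        rw [coeff_one]
        simp
      rw [h9, sub_zero, ← map_mul, inv_mul_cancel₀ hv1, map_one]
    have hdeg : (C (algebraMap K0 S (ev f v)⁻¹) * (lin f d e - 1)).natDegree ≤ 6 := by
      refine le_trans (natDegree_C_mul_le _ _) ?_
      refine le_trans (natDegree_sub_le _ _) (max_le h1 ?_)
      rw [natDegree_one]
      exact Nat.zero_le _
    refine ⟨C (algebraMap K0 S (ev f v)⁻¹) * (lin f d e - 1), monic_of_natDegree_le_of_coeff_eq_one 6 hdeg ?_, ?_⟩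
    · rw [coeff_C_mul]
      exact hc
    · rw [← Polynomial.aeval_def, map_mul, map_sub, h4, map_one, sub_self, mul_zero]
  have hgen : ∀ i, IsIntegral S (yx f i) := by
    intro i
    have h10 : yx f i = algebraMap S (YR f) (d i) * w + algebraMap S (YR f) (e i) := by
      have h7 : algebraMap S (YR f) (d i) = algebraMap K0 (YR f) (v i) := rfl
      have h8 : algebraMap S (YR f) (e i) = u i := rfl
      rw [h7, h8]
      simp only [hu]
      ring
    rw [h10]
    exact (isIntegral_algebraMap.mul hwi).add isIntegral_algebraMap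
  intro r
  obtain ⟨q, rfl⟩ := Ideal.Quotient.mk_surjective r
  induction q using MvPolynomial.induction_on with
  | C c =>
    have h11 : (Ideal.Quotient.mk (Ideal.span ({f - 1} : Set (MvPolynomial (Fin 3) K0))) (MvPolynomial.C c) : YR f) =
        algebraMap S (YR f) (algebraMap K0 S c) := rfl
    rw [h11]
    exact isIntegral_algebraMap
  | add p q hp hq =>
    rw [map_add]
    exact hp.add hq
  | mul_X p i hp =>
    rw [map_mul]
    exact hp.mul (hgen i)

end H25.DP
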