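import Pool.Agent.H25.DP2.Def
import Pool.Agent.H25.DP.Prp
import Pool.Agent.H25.DP.RatC

/-! # DP2.PushY : push-forward from the affine surface `f(p) = 1` to the double plane (about 150 lines; given `push_pd`, `prp`, `sp_uniq`, `sp_inv`, `scale`)

`push_pd` with `gp = ptY`, `gm = (ptY _).inv`.  Compatibility with the action and with specialisation (scalar `1`): immediate.
`hkill`: `y r ∉ V` for some `r`: the coordinate functions generate, so `y (yx f i) ∉ V` for some `i`.  Let `i` be an index with `y (yx f j) / y (yx f i) ∈ V` for all `j` (then `y (yx f i) ∉ V`), the scalar `c = (y (yx f i))⁻¹` reduces to `0`, `c p` reduces to a vector with `i`-th coordinate `1`, `c³ z = c³` reduces to `0`: `(p', 0)` is a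
specialisation `Q` of `ptY y` with `Q.inv = Q`.  By `sp_uniq` `xp` and `xm` (`sp_inv`) have `z = 0` and are proportional to `Q`: `scale`. -/

namespace H25.DP

open H68.BB (Om Place Rd tt)
open H77.AF

private theorem py_ev {K0 : Type} [Field K0] {K : Type} [Field K] [Algebra K0 K] {π : Place K (Om K)}
    (F : MvPolynomial (Fin 3) K0) {p : Fin 3 → Om K} {q : Fin 3 → K} (h : ∀ i, Rd π.V π.φ (p i) (q i)) :
    Rd π.V π.φ (ev F p) (ev F q) := by
  unfold ev
  induction F using MvPolynomial.induction_on with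
  | C a =>
    rw [MvPolynomial.aeval_C, MvPolynomial.aeval_C, IsScalarTower.algebraMap_apply K0 K (Om K)]
    exact π.const _
  | add F G hF hG =>
    rw [map_add, map_add]
    exact hF.add hG
  | mul_X F i hF =>
    rw [map_mul, map_mul, MvPolynomial.aeval_X, MvPolynomial.aeval_X]
    exact hF.mul (h i)

private theorem py_mem {K0 : Type} [Field K0] {K : Type} [Field K] [Algebra K0 K] {f : MvPolynomial (Fin 3) K0}
    (V : ValuationSubring (Om K)) (hV : ∀ c : K0, algebraMap K0 (Om K) c ∈ V) (y : YR f →ₐ[K0] Om K)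
    (h : ∀ i, y (yx f i) ∈ V) (r : YR f) : y r ∈ V := by
  obtain ⟨F, rfl⟩ := Ideal.Quotient.mk_surjective r
  induction F using MvPolynomial.induction_on with
  | C a =>
    have h1 : (Ideal.Quotient.mk (Ideal.span ({f - 1} : Set (MvPolynomial (Fin 3) K0))) (MvPolynomial.C a)) =
        algebraMap K0 (YR f) a := rfl
    rw [h1, AlgHom.commutes]
    exact hV a
  | add F G hF hG =>
    rw [map_add, map_add]
    exact V.add_mem _ _ hF hG
  | mul_X F i hF =>
    rw [map_mul, map_mul]
    exact V.mul_mem _ _ hF (h i)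

private theorem py_zero {K : Type} [Field K] (π : Place K (Om K)) {c : Om K} (hc : c⁻¹ ∉ π.V) (h : c ∈ π.V) :
    Rd π.V π.φ c 0 := by
  haveI := π.isLocal
  have h1 : Rd π.V π.φ c (π.φ ⟨c, h⟩) := Rd.of_mem h
  by_cases h0 : π.φ ⟨c, h⟩ = 0
  · rw [h0] at h1
    exact h1
  · exact absurd (h1.inv h0).mem hc

theorem push_y {K0 : Type} [Field K0] {K : Type} [Field K] [IsAlgClosed K] [Algebra K0 K] {f : MvPolynomial (Fin 3) K0}
    (hf : f.IsHomogeneous 6) {k : ℕ} {x : Cyc (pts K0 K (YR f)) k} (hx : x ∈ tor (RatEq (pts K0 K (YR f)) k)) :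
    phi (pts K0 K (YR f)) (D' := xpd K f) (fun y => ptY hf y) (fun y => (ptY hf y).inv) k x ∈ tor (RatEq (xpd K f) k) := by
  classical
  have hσc : ∀ (σ : Om K ≃ₐ[RatFunc K] Om K) (y : YR f →ₐ[K0] Om K),
      (xpd K f).act σ (ptY hf y) = ptY hf ((pts K0 K (YR f)).act σ y) := by
    intro σ y
    refine XP.ext ?_ ?_
    · rfl
    · exact map_one σ
  refine push_pd (D := pts K0 K (YR f)) (D' := xpd K f) (fun y => ptY hf y) (fun y => (ptY hf y).inv)
    (fun y => ptY hf y) (fun y => (ptY hf y).inv) hσc ?_ ?_ ?_ (fun π y => prp hf π y) ?_ hx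
  · intro σ y
    refine XP.ext rfl ?_
    show σ (-1) = -1
    rw [map_neg, map_one]
  · intro π (y : YR f →ₐ[K0] Om K) (x : YR f →ₐ[K0] K) h
    refine ⟨1, one_ne_zero, fun i => ?_, ?_⟩
    · rw [one_mul]
      exact h (yx f i)
    · show Rd π.V π.φ (1 ^ 3 * 1) 1
      rw [one_pow, one_mul]
      exact Rd.one
  · intro π (y : YR f →ₐ[K0] Om K) (x : YR f →ₐ[K0] K) h
    refine ⟨1, one_ne_zero, fun i => ?_, ?_⟩
    · rw [one_mul]
      exact h (yx f i)
    · show Rd π.V π.φ (1 ^ 3 * (-1)) (-1)
      rw [one_pow, one_mul]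
      exact Rd.one.neg
  · intro π (y : YR f →ₐ[K0] Om K) xp xm (hoff : ∃ r, y r ∉ π.V) hxp hxm
    obtain ⟨r, hr⟩ := hoff
    have hK0 : ∀ c : K0, algebraMap K0 (Om K) c ∈ π.V := by
      intro c
      rw [IsScalarTower.algebraMap_apply K0 K (Om K)]
      exact (π.const _).choose
    -- a coordinate of maximal valuation
    have hv : (fun i => y (yx f i)) ≠ 0 := by
      intro h
      have h1 := (ptY hf y).ne
      exact h1 h
    obtain ⟨i, hi0, hi⟩ : ∃ i, y (yx f i) ≠ 0 ∧ ∀ j, y (yx f j) / y (yx f i) ∈ π.V := by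
      obtain ⟨i, hi⟩ := Finite.exists_max (fun j => π.V.valuation (y (yx f j)))
      have hi0 : y (yx f i) ≠ 0 := by
        intro h
        apply hv
        funext j
        have h1 := hi j
        rw [h, map_zero] at h1
        have h2 : π.V.valuation (y (yx f j)) = 0 := le_antisymm h1 zero_le
        exact (map_eq_zero π.V.valuation).1 h2
      refine ⟨i, hi0, fun j => ?_⟩
      rw [← ValuationSubring.valuation_le_one_iff, map_div₀]
      exact div_le_one_of_le₀ (hi j) zero_le
    have hiV : y (yx f i) ∉ π.V := by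
      intro h
      refine hr (py_mem π.V hK0 y (fun j => ?_) r)
      have h1 := π.V.mul_mem _ _ (hi j) h
      rw [div_mul_cancel₀ _ hi0] at h1
      exact h1
    set c : Om K := (y (yx f i))⁻¹ with hcdef
    have hc0 : c ≠ 0 := inv_ne_zero hi0
    have hcV : c ∈ π.V := (π.V.mem_or_inv_mem _).resolve_left hiV
    have hcR : Rd π.V π.φ c 0 := py_zero π (by rw [hcdef, inv_inv]; exact hiV) hcV
    have hcj : ∀ j, c * y (yx f j) ∈ π.V := by
      intro j
      have h1 := hi j
      rw [div_eq_mul_inv, mul_comm] at h1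
      exact h1
    have hqR : ∀ j, Rd π.V π.φ (c * y (yx f j)) (π.φ ⟨c * y (yx f j), hcj j⟩) := fun j => Rd.of_mem (hcj j)
    set q : Fin 3 → K := fun j => π.φ ⟨c * y (yx f j), hcj j⟩ with hqdef
    have hqi : q i = 1 := by
      refine (hqR i).unique ?_
      rw [hcdef, inv_mul_cancel₀ hi0]
      exact Rd.one
    have hc3 : Rd π.V π.φ (c ^ 3) 0 := by
      have h1 := hcR.pow 3
      rw [zero_pow (by norm_num)] at h1
      exact h1
    let Q : XP f K :=
      { p := q
        z := 0
        ne := fun h => by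
          have h1 := congrFun h i
          rw [hqi] at h1
          exact one_ne_zero h1
        eq := by
          have h1 : Rd π.V π.φ (ev f (fun j => c * y (yx f j))) (ev f q) := py_ev f hqR
          rw [ev_smul hf, y_ev, mul_one] at h1
          have h2 : Rd π.V π.φ (c ^ 6) 0 := by
            have h3 := hcR.pow 6
            rw [zero_pow (by norm_num)] at h3
            exact h3
          rw [h1.unique h2, zero_pow two_ne_zero] }
    have hQ : (xpd K f).sp π (ptY hf y) Q := by
      refine ⟨c, hc0, hqR, ?_⟩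
      show Rd π.V π.φ (c ^ 3 * 1) 0
      rw [mul_one]
      exact hc3
    have hQinv : Q.inv = Q := XP.ext rfl neg_zero
    obtain ⟨a1, ha1, h1, h2⟩ := sp_uniq hQ hxp
    have hQm : (xpd K f).sp π (ptY hf y).inv Q := by
      have h3 := sp_inv hQ
      rw [hQinv] at h3
      exact h3
    obtain ⟨a2, ha2, h3, h4⟩ := sp_uniq hQm hxm
    have e1 := scale ha1 h1 h2
    have e2 := scale ha2 h3 h4
    apply le_tor
    have e3 := AddSubgroup.sub_mem _ e2 e1
    have e4 : ∀ A B C : Cyc (xpd K f) 1, A - C - (A - B) = B - C := by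
      intro A B C
      abel
    have e5 := e4 (Finsupp.single (fun _ => Q) 1) (Finsupp.single (fun _ => xp) 1) (Finsupp.single (fun _ => xm) 1)
    change _ ∈ RatEq (xpd K f) 1 at e3
    exact Eq.subst (motive := fun z : Cyc (xpd K f) 1 => z ∈ RatEq (xpd K f) 1) e5 e3

end H25.DP
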