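import Pool.Agent.H25.DP2.Irr
import Pool.Agent.H25.DP2.IntY
import Pool.Agent.H25.DP2.PushY
import Pool.Agent.H77.AF.FinA

/-! # DP2.Crv : the relation for the letters `a_P` on a curve (about 150 lines; given `irr`, `int_y`, `push_y`, `H77.AF.comps`, `relA`)

`G' ∈ YR f` nonzero.  As in the proof of `H77.AF.finA` (`Pool/Agent/H77/AF/FinA.lean`; copy the private lemmas `map_up`, `comp_rel`): `comps` for `T`, `X` of `int_y` and `G'`, `comp_rel` on every component, pigeonhole: `g = ∑ mm i`: for every injective family of `g + 1` points `y_i : YR f → K` with `y_i G' = 0` there are `J`, `c < |J|` and points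
`w_l` with `up (∑_{i ∈ J} single (y i) 1 + ∑ single (w l) 1) ∈ tor (RatEq (pts K0 K (YR f)) 1)`.  Apply `push_y` with `k = 1`: `phi` sends `up (single y 1)` to `up (aY y)` (`phi_single`, `pr2` for `k = 1`: the two subsets of `Fin 1`). -/

namespace H25.DP

open H77.AF H77.SN H68.BB

private theorem crv_map_up {K : Type} [Field K] {D D' : PD K} (f : D'.X → D.X) {m c : ℕ} (P : Fin m → D'.X)
    (Q : Fin c → D'.X) :
    Finsupp.mapDomain (fun (P : Fin 1 → D'.X) i => f (P i))
      (up ((∑ i, Finsupp.single (P i) 1) + ∑ l, Finsupp.single (Q l) 1)) =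
    up ((∑ i, Finsupp.single (f (P i)) 1) + ∑ l, Finsupp.single (f (Q l)) 1) := by
  have hup : ∀ (E : PD K) (x : E.X), up (Finsupp.single x 1) = Finsupp.single (fun _ => x) 1 :=
    fun _ x => Finsupp.mapDomain_single
  have h1 : ∀ z : Cyc D' 1, Finsupp.mapDomain (fun (P : Fin 1 → D'.X) i => f (P i)) z =
      Finsupp.mapDomain.addMonoidHom (fun (P : Fin 1 → D'.X) i => f (P i)) z := fun _ => rfl
  rw [h1]
  simp only [map_add, map_sum, hup]
  congr 1
  · exact Finset.sum_congr rfl fun i _ => Finsupp.mapDomain_single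
  · exact Finset.sum_congr rfl fun i _ => Finsupp.mapDomain_single

/-- one component of the curve -/
private theorem crv_comp_rel {K0 R : Type} [Field K0] [IsAlgClosed K0] [CharZero K0] [CommRing R] [Algebra K0 R]
    [Algebra.FiniteType K0 R] (p : Ideal R) [p.IsPrime]
    (hp : (∀ r : R ⧸ p, ∃ c : K0, r = algebraMap K0 (R ⧸ p) c) ∨ ∃ U : R ⧸ p, Transcendental K0 U ∧ Alg1 K0 U) :
    ∃ m : ℕ, ∀ (K : Type) [Field K] [IsAlgClosed K] [Algebra K0 K] (P : Fin m → R →ₐ[K0] K), Function.Injective P →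
      (∀ i, ∀ r ∈ p, P i r = 0) → ∃ (c : ℕ) (Q : Fin c → R →ₐ[K0] K), c < m ∧
        up (D := pts K0 K R) ((∑ i, Finsupp.single (P i) 1) + ∑ l, Finsupp.single (Q l) 1) ∈
          tor (RatEq (pts K0 K R) 1) := by
  rcases hp with hp | ⟨U, hU, hA⟩
  · refine ⟨2, fun K _ _ _ P hP hPp => ?_⟩
    exfalso
    have h1 : P 0 = P 1 := by
      apply AlgHom.ext
      intro r
      obtain ⟨c, hc⟩ := hp (Ideal.Quotient.mk p r)
      have h2 : r - algebraMap K0 R c ∈ p := by
        rw [← Ideal.Quotient.eq]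
        exact hc
      have h3 : ∀ i, P i r = algebraMap K0 K c := by
        intro i
        have h4 := hPp i _ h2
        rw [map_sub, AlgHom.commutes, sub_eq_zero] at h4
        exact h4
      rw [h3, h3]
    exact absurd (hP h1) (by decide)
  · have : Algebra.FiniteType K0 (R ⧸ p) :=
      Algebra.FiniteType.of_surjective (Ideal.Quotient.mkₐ K0 p) (Ideal.Quotient.mkₐ_surjective K0 p)
    obtain ⟨C, hC⟩ := relA K0 (R ⧸ p) hU hA
    obtain ⟨m, hm, h⟩ := hC (C + 1)
    refine ⟨m, fun K _ _ _ P hP hPp => ?_⟩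
    let P' : Fin m → R ⧸ p →ₐ[K0] K := fun i => Ideal.Quotient.liftₐ p (P i) (hPp i)
    have hP' : ∀ i, (P' i).comp (Ideal.Quotient.mkₐ K0 p) = P i := fun i => by
      apply AlgHom.ext
      intro r
      rfl
    obtain ⟨c, Q, hc, h1⟩ := h K P' (fun i j hij => hP (by rw [← hP' i, ← hP' j, hij]))
    refine ⟨c, fun l => (Q l).comp (Ideal.Quotient.mkₐ K0 p), by omega, ?_⟩
    have h2 := push (Ideal.Quotient.mkₐ K0 p) (Ideal.Quotient.mkₐ_surjective K0 p) h1
    have h3 := crv_map_up (D := pts K0 K R) (D' := pts K0 K (R ⧸ p))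
      (fun y : R ⧸ p →ₐ[K0] K => y.comp (Ideal.Quotient.mkₐ K0 p)) P' Q
    have h4 : up (D := pts K0 K R) ((∑ i, Finsupp.single ((P' i).comp (Ideal.Quotient.mkₐ K0 p)) 1) +
        ∑ l, Finsupp.single ((Q l).comp (Ideal.Quotient.mkₐ K0 p)) 1) ∈ tor (RatEq (pts K0 K R) 1) :=
      Eq.mp (congrArg (fun w => w ∈ tor (RatEq (pts K0 K R) 1)) h3) h2
    simp only [hP'] at h4
    exact h4

private theorem crv_phi {K : Type} [Field K] {D D' : PD K} (gp gm : D.X → D'.X) (y : D.X) :
    phi D gp gm 1 (up (Finsupp.single y 1)) = up (Finsupp.single (gp y) 1 - Finsupp.single (gm y) 1) := by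
  have h1 : ∀ (E : PD K) (P : E.X) (n : ℤ), up (D := E) (Finsupp.single P n) = Finsupp.single (fun _ => P) n :=
    fun _ _ _ => Finsupp.mapDomain_single
  have h2 : (Finset.univ : Finset (Finset (Fin 1))) = {∅, {0}} := by decide
  have h5 : ∀ i : Fin 1, i ∈ ({0} : Finset (Fin 1)) := fun i => by
    rw [Finset.mem_singleton]
    exact Subsingleton.elim _ _
  rw [map_sub, h1, h1, h1, phi_single, one_smul]
  unfold pr2
  rw [h2, Finset.sum_pair (by decide), Finset.card_empty, pow_zero, one_smul, Finset.card_singleton, pow_one,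
    neg_one_smul, sub_eq_add_neg]
  congr 3
  funext i
  rw [if_pos (h5 i)]

private theorem crv_phi2 {K : Type} [Field K] {D D' : PD K} (gp gm : D.X → D'.X) {m c : ℕ} (P : Fin m → D.X)
    (Q : Fin c → D.X) :
    phi D gp gm 1 (up ((∑ i, Finsupp.single (P i) 1) + ∑ l, Finsupp.single (Q l) 1)) =
      up ((∑ i, (Finsupp.single (gp (P i)) 1 - Finsupp.single (gm (P i)) 1)) +
        ∑ l, (Finsupp.single (gp (Q l)) 1 - Finsupp.single (gm (Q l)) 1)) := by
  rw [map_add, map_add, map_add, map_sum, map_sum, map_sum, map_sum]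
  congr 1
  · rw [map_sum]
    exact Finset.sum_congr rfl fun i _ => crv_phi gp gm (P i)
  · rw [map_sum]
    exact Finset.sum_congr rfl fun i _ => crv_phi gp gm (Q i)

theorem crv {K0 : Type} [Field K0] [IsAlgClosed K0] [CharZero K0] {f : MvPolynomial (Fin 3) K0} (hf : Sm f) {G' : YR f}
    (hG : G' ≠ 0) :
    ∃ g : ℕ, ∀ (K : Type) [Field K] [IsAlgClosed K] [Algebra K0 K] (y : Fin (g + 1) → YR f →ₐ[K0] K),
      Function.Injective y → (∀ i, y i G' = 0) →
      ∃ (J : Finset (Fin (g + 1))) (c : ℕ) (w : Fin c → YR f →ₐ[K0] K), c < J.card ∧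
        up ((∑ i ∈ J, aY hf.hom (y i)) + ∑ l, aY hf.hom (w l)) ∈ tor (RatEq (xpd K f) 1) := by
  classical
  have : IsDomain (YR f) := irr hf
  obtain ⟨T, X, hint⟩ := int_y hf
  obtain ⟨n, p, hprime, hdim, hcov⟩ := comps T X hint hG
  have hrel := fun i => crv_comp_rel (p i) (hdim i)
  choose mm hmm using hrel
  obtain ⟨g, hg⟩ : ∃ g, g = ∑ i, mm i := ⟨_, rfl⟩
  refine ⟨g, ?_⟩
  intro K _ _ _ P hPinj hPL
  have hcov' := fun j => hcov K (P j) (hPL j)
  choose ic hic using hcov'
  obtain ⟨i, hi⟩ : ∃ i, mm i ≤ (Finset.univ.filter fun j => ic j = i).card := by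
    by_contra hcon
    push Not at hcon
    have h1 : (Finset.univ : Finset (Fin (g + 1))).card = ∑ i, (Finset.univ.filter fun j => ic j = i).card :=
      Finset.card_eq_sum_card_fiberwise (fun _ _ => Finset.mem_univ _)
    rw [Finset.card_univ, Fintype.card_fin] at h1
    have h2 : ∑ i, (Finset.univ.filter fun j => ic j = i).card ≤ ∑ i, mm i :=
      Finset.sum_le_sum fun i _ => (hcon i).le
    omega
  obtain ⟨J, hJ, hJc⟩ := Finset.exists_subset_card_eq hi
  have e : Fin (mm i) ≃ {x // x ∈ J} := (Fintype.equivFinOfCardEq (by rw [Fintype.card_coe, hJc])).symm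
  obtain ⟨c, R', hc, h1⟩ := hmm i K (fun j => P (e j))
    (fun a b hab => e.injective (Subtype.ext (hPinj hab)))
    (fun j r hr => by
      have h2 := (Finset.mem_filter.1 (hJ (e j).2)).2
      exact hic (e j) r (by rw [h2]; exact hr))
  refine ⟨J, c, R', by omega, ?_⟩
  have h2 := push_y hf.hom h1
  have h3 : ∑ x ∈ J, aY hf.hom (P x) = ∑ j, aY hf.hom (P (e j)) := by
    rw [← Finset.sum_coe_sort J, ← Equiv.sum_comp e]
  rw [h3]
  have h4 := crv_phi2 (D := pts K0 K (YR f)) (D' := xpd K f) (fun y => ptY hf.hom y) (fun y => (ptY hf.hom y).inv)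
    (fun j => P (e j)) R'
  exact Eq.mp (congrArg (fun w => w ∈ tor (RatEq (xpd K f) 1)) h4) h2

end H25.DP
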