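import Pool.Agent.H25.DP.LinF
import Pool.Agent.H25.DP.Push
import Pool.Agent.H77.AF.Pts

/-! # DP2.Def : curves on a double plane, the affine surface `f(p) = 1` (definitions and trivial facts, no sorry) -/

namespace H25.DP

open H68.BB (Om Place Rd)
open H77.AF

variable {K0 : Type} [Field K0]

/-- the coordinate vector `(p_0, p_1, p_2, z)` -/
def XP.vec {f : MvPolynomial (Fin 3) K0} {F : Type} [Field F] [Algebra K0 F] (P : XP f F) : Fin 4 → F :=
  ![P.p 0, P.p 1, P.p 2, P.z]

/-- the weights `(1, 1, 1, 3)` -/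
def wts : Fin 4 → ℕ := ![1, 1, 1, 3]

/-- the value of `G` at a point of `X` -/
noncomputable def evG {f : MvPolynomial (Fin 3) K0} {F : Type} [Field F] [Algebra K0 F] (G : MvPolynomial (Fin 4) K0)
    (P : XP f F) : F := MvPolynomial.aeval P.vec G

/-- the degree of a zero-cycle -/
def deg {X : Type} (z : X →₀ ℤ) : ℤ := z.sum fun _ n => n

/-- the coordinate ring of the affine surface `f(p) = 1` -/
abbrev YR (f : MvPolynomial (Fin 3) K0) : Type := MvPolynomial (Fin 3) K0 ⧸ Ideal.span ({f - 1} : Set (MvPolynomial (Fin 3) K0))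

/-- the coordinate functions -/
noncomputable def yx (f : MvPolynomial (Fin 3) K0) (i : Fin 3) : YR f := Ideal.Quotient.mk _ (MvPolynomial.X i)

theorem y_ev {f : MvPolynomial (Fin 3) K0} {F : Type} [CommRing F] [Algebra K0 F] (y : YR f →ₐ[K0] F) :
    ev f (fun i => y (yx f i)) = 1 := by
  have h1 : ev f (fun i => y (yx f i)) = y (Ideal.Quotient.mk _ f) := by
    have h2 : (MvPolynomial.aeval (fun i => y (yx f i)) : MvPolynomial (Fin 3) K0 →ₐ[K0] F) =
        y.comp (Ideal.Quotient.mkₐ K0 _) := by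
      apply MvPolynomial.algHom_ext
      intro i
      rw [MvPolynomial.aeval_X]
      rfl
    unfold ev
    rw [h2]
    rfl
  rw [h1]
  have h3 : (Ideal.Quotient.mk (Ideal.span ({f - 1} : Set (MvPolynomial (Fin 3) K0))) f) = 1 := by
    rw [← map_one (Ideal.Quotient.mk _), Ideal.Quotient.eq]
    exact Ideal.mem_span_singleton_self _
  rw [h3, map_one]

/-- the point `(p, 1)` of `X` given by a point `p` of the surface `f(p) = 1` -/
noncomputable def ptY {f : MvPolynomial (Fin 3) K0} (hf : f.IsHomogeneous 6) {F : Type} [Field F] [Algebra K0 F]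
    (y : YR f →ₐ[K0] F) : XP f F where
  p := fun i => y (yx f i)
  z := 1
  ne := fun h => by
    have h1 := y_ev y
    rw [h] at h1
    have h2 := ev_smul hf (0 : F) (0 : Fin 3 → F)
    have h3 : (fun i => (0 : F) * (0 : Fin 3 → F) i) = 0 := by
      funext i
      exact zero_mul _
    rw [h3, zero_pow (by norm_num), zero_mul, h1] at h2
    exact one_ne_zero h2
  eq := by rw [one_pow]; exact (y_ev y).symm

/-- the letters `a_P = P - ι P`, `P = (p, 1)` -/
noncomputable def aY {f : MvPolynomial (Fin 3) K0} (hf : f.IsHomogeneous 6) {K : Type} [Field K] [Algebra K0 K]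
    (y : YR f →ₐ[K0] K) : Cyc1 (xpd K f) := aX (ptY hf y)

end H25.DP
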