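import Pool.Agent.H25.DP2.Def

/-! # DP2.ExNe : a form `G` which does not vanish on `X` does not vanish on `f(p) = 1` (about 150 lines)

The case `P.z ≠ 0`: `c³ P.z = 1`, `p = c P.p` (`ev_smul`, weighted homogeneity of `G`).  The case `P.z = 0`: choose `v` with `f(P.p + v) ≠ 0` (`f ≠ 0`); `φ(u) = f(P.p + u v)` is a nonzero polynomial with `φ(0) = 0`; `G(P.p + u v, Z) = A(u) + Z B(u)` modulo `Z² - φ(u)` (division by a monic polynomial, or
separate the even and odd powers of `Z`), `N = A² - φ B²`, `N(0) = G(P)² ≠ 0`; choose `u` with `φ(u) N(u) ≠ 0` and `z` with `z² = φ(u)`: the point `(P.p + u v, z)` has `z ≠ 0` and `G ≠ 0` (`N = (A + z B)(A - z B)`): first case. -/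

namespace H25.DP

private theorem exn_smul {K0 : Type} [Field K0] {G : MvPolynomial (Fin 4) K0} {w : ℕ}
    (hG : MvPolynomial.IsWeightedHomogeneous wts G w) (c : K0) (x : Fin 4 → K0) :
    MvPolynomial.aeval (fun i => c ^ wts i * x i) G = c ^ w * MvPolynomial.aeval x G := by
  rw [MvPolynomial.aeval_def, MvPolynomial.aeval_def, MvPolynomial.eval₂_eq', MvPolynomial.eval₂_eq', Finset.mul_sum]
  refine Finset.sum_congr rfl fun d hd => ?_
  have h1 : ∑ i, wts i * d i = w := by
    have h := hG (MvPolynomial.mem_support_iff.1 hd)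
    rw [Finsupp.weight_apply, Finsupp.sum_fintype _ _ (fun i => by rw [zero_smul])] at h
    rw [← h]
    exact Finset.sum_congr rfl fun i _ => by rw [smul_eq_mul, mul_comm]
  rw [Finset.prod_congr rfl fun i _ => mul_pow (c ^ wts i) (x i) (d i), Finset.prod_mul_distrib,
    Finset.prod_congr rfl fun i _ => (pow_mul c (wts i) (d i)).symm, Finset.prod_pow_eq_pow_sum, h1]
  ring

/-- the case `z ≠ 0` -/
private theorem exn_case {K0 : Type} [Field K0] [IsAlgClosed K0] {f : MvPolynomial (Fin 3) K0} (hf : f.IsHomogeneous 6)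
    {G : MvPolynomial (Fin 4) K0} {w : ℕ} (hG : MvPolynomial.IsWeightedHomogeneous wts G w) {q : Fin 3 → K0} {z : K0}
    (hz : z ≠ 0) (hq : z ^ 2 = ev f q) (h : MvPolynomial.aeval ![q 0, q 1, q 2, z] G ≠ 0) :
    ∃ p : Fin 3 → K0, ev f p = 1 ∧ MvPolynomial.aeval ![p 0, p 1, p 2, 1] G ≠ 0 := by
  obtain ⟨c, hc⟩ := IsAlgClosed.exists_pow_nat_eq z⁻¹ (n := 3) (by norm_num)
  have hc0 : c ≠ 0 := by
    rintro rfl
    rw [zero_pow (by norm_num)] at hc
    exact inv_ne_zero hz hc.symm
  refine ⟨fun i => c * q i, ?_, ?_⟩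
  · rw [ev_smul hf, ← hq]
    have e : c ^ 6 * z ^ 2 = (c ^ 3 * z) ^ 2 := by ring
    rw [e, hc, inv_mul_cancel₀ hz, one_pow]
  · have e : (![c * q 0, c * q 1, c * q 2, 1] : Fin 4 → K0) = fun i => c ^ wts i * ![q 0, q 1, q 2, z] i := by
      funext i
      fin_cases i
      · simp [wts]
      · simp [wts]
      · simp [wts]
      · simp only [wts]
        change (1 : K0) = c ^ 3 * z
        rw [hc, inv_mul_cancel₀ hz]
    change MvPolynomial.aeval ![c * q 0, c * q 1, c * q 2, 1] G ≠ 0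
    rw [e, exn_smul hG]
    exact mul_ne_zero (pow_ne_zero _ hc0) h

private theorem exn_ab {K0 : Type} [Field K0] (p v : Fin 3 → K0) (φ : Polynomial K0) (G : MvPolynomial (Fin 4) K0) :
    ∃ A B : Polynomial K0, ∀ u z : K0, z ^ 2 = φ.eval u →
      MvPolynomial.aeval ![p 0 + u * v 0, p 1 + u * v 1, p 2 + u * v 2, z] G = A.eval u + z * B.eval u := by
  induction G using MvPolynomial.induction_on with
  | C a => exact ⟨Polynomial.C a, 0, fun u z _ => by simp⟩
  | add G1 G2 h1 h2 =>
    obtain ⟨A1, B1, h1⟩ := h1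
    obtain ⟨A2, B2, h2⟩ := h2
    refine ⟨A1 + A2, B1 + B2, fun u z hz => ?_⟩
    rw [map_add, h1 u z hz, h2 u z hz, Polynomial.eval_add, Polynomial.eval_add]
    ring
  | mul_X G i h =>
    obtain ⟨A, B, h⟩ := h
    have key : ∀ (j : Fin 3), (∀ u z : K0, (![p 0 + u * v 0, p 1 + u * v 1, p 2 + u * v 2, z] : Fin 4 → K0) i =
        p j + u * v j) → ∃ A B : Polynomial K0, ∀ u z : K0, z ^ 2 = φ.eval u →
      MvPolynomial.aeval ![p 0 + u * v 0, p 1 + u * v 1, p 2 + u * v 2, z] (G * MvPolynomial.X i) =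
        A.eval u + z * B.eval u := by
      intro j hj
      refine ⟨A * (Polynomial.C (p j) + Polynomial.X * Polynomial.C (v j)),
        B * (Polynomial.C (p j) + Polynomial.X * Polynomial.C (v j)), fun u z hz => ?_⟩
      rw [map_mul, MvPolynomial.aeval_X, h u z hz, hj]
      simp only [Polynomial.eval_mul, Polynomial.eval_add, Polynomial.eval_C, Polynomial.eval_X]
      ring
    have hi : i = 0 ∨ i = 1 ∨ i = 2 ∨ i = 3 := by
      fin_cases i <;> simp
    rcases hi with rfl | rfl | rfl | rfl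
    · exact key 0 fun u z => rfl
    · exact key 1 fun u z => rfl
    · exact key 2 fun u z => rfl
    · refine ⟨φ * B, A, fun u z hz => ?_⟩
      rw [map_mul, MvPolynomial.aeval_X, h u z hz, Polynomial.eval_mul]
      change (A.eval u + z * B.eval u) * z = _
      linear_combination B.eval u * hz

theorem exists_ne {K0 : Type} [Field K0] [IsAlgClosed K0] {f : MvPolynomial (Fin 3) K0} (hf : Sm f)
    {G : MvPolynomial (Fin 4) K0} {w : ℕ} (hG : MvPolynomial.IsWeightedHomogeneous wts G w) {P : XP f K0}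
    (hP : evG G P ≠ 0) : ∃ p : Fin 3 → K0, ev f p = 1 ∧ MvPolynomial.aeval ![p 0, p 1, p 2, 1] G ≠ 0 := by
  by_cases hz : P.z = 0
  swap
  · exact exn_case hf.hom hG (q := P.p) hz P.eq hP
  have hf0 : f ≠ 0 := by
    rintro rfl
    apply hf.sm (fun _ => 1) (fun h => one_ne_zero (congrFun h 0))
    funext i
    unfold grad ev
    rw [map_zero, map_zero]
    rfl
  obtain ⟨q, hq⟩ : ∃ q : Fin 3 → K0, ev f q ≠ 0 := by
    by_contra hcon
    push Not at hcon
    apply hf0
    apply MvPolynomial.funext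
    intro x
    have := hcon x
    unfold ev at this
    rw [MvPolynomial.aeval_eq_eval] at this
    rw [map_zero]
    exact this
  obtain ⟨v, hv⟩ : ∃ v : Fin 3 → K0, v = fun i => q i - P.p i := ⟨_, rfl⟩
  obtain ⟨φ, hφ⟩ : ∃ φ : Polynomial K0, φ = lin f v P.p := ⟨_, rfl⟩
  have hev : ∀ u, φ.eval u = ev f (fun i => P.p i + u * v i) := by
    intro u
    rw [hφ, lin_eval]
    congr 1
    funext i
    simp only [lc]
    ring
  have hφ1 : φ.eval 1 ≠ 0 := by
    rw [hev]
    have e : (fun i => P.p i + 1 * v i) = q := by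
      funext i
      rw [hv]
      ring
    rw [e]
    exact hq
  have hφ0 : φ.eval 0 = 0 := by
    rw [hev]
    have e : (fun i => P.p i + 0 * v i) = P.p := by
      funext i
      ring
    rw [e, ← P.eq, hz]
    ring
  have hφne : φ ≠ 0 := by
    rintro h
    rw [h] at hφ1
    simp at hφ1
  obtain ⟨A, B, hAB⟩ := exn_ab P.p v φ G
  have hA0 : A.eval 0 ≠ 0 := by
    have h1 := hAB 0 0 (by rw [hφ0]; ring)
    have e : (![P.p 0 + 0 * v 0, P.p 1 + 0 * v 1, P.p 2 + 0 * v 2, 0] : Fin 4 → K0) = P.vec := by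
      unfold XP.vec
      rw [hz]
      simp
    rw [e, zero_mul, add_zero] at h1
    rw [← h1]
    exact hP
  have hN : A ^ 2 - φ * B ^ 2 ≠ 0 := by
    intro h
    have h1 := congrArg (Polynomial.eval 0) h
    rw [Polynomial.eval_sub, Polynomial.eval_pow, Polynomial.eval_mul, hφ0, zero_mul, sub_zero,
      Polynomial.eval_zero] at h1
    exact hA0 (pow_eq_zero_iff two_ne_zero |>.1 h1)
  obtain ⟨u, hu⟩ : ∃ u : K0, (φ * (A ^ 2 - φ * B ^ 2)).eval u ≠ 0 := by
    by_contra hcon
    push Not at hcon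
    exact mul_ne_zero hφne hN (Polynomial.funext fun u => by rw [hcon u, Polynomial.eval_zero])
  rw [Polynomial.eval_mul] at hu
  have hu1 := left_ne_zero_of_mul hu
  have hu2 := right_ne_zero_of_mul hu
  obtain ⟨z, hz2⟩ := IsAlgClosed.exists_pow_nat_eq (φ.eval u) (n := 2) (by norm_num)
  have hz0 : z ≠ 0 := by
    rintro rfl
    rw [zero_pow (by norm_num)] at hz2
    exact hu1 hz2.symm
  refine exn_case hf.hom hG (q := fun i => P.p i + u * v i) (z := z) hz0 (by rw [hz2, hev]) ?_
  rw [hAB u z hz2]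
  intro h
  apply hu2
  rw [Polynomial.eval_sub, Polynomial.eval_pow, Polynomial.eval_mul, Polynomial.eval_pow, ← hz2]
  linear_combination (A.eval u - z * B.eval u) * h

end H25.DP
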