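import Pool.Agent.H25.DP2.Main2
import Pool.Agent.H25.DP.Brg
import Pool.Agent.H77.UB.Iso

/-! # DP2.Fin : the theorem on elliptic surfaces over all bases is available -/

namespace H25.DP

open H77.AF

theorem abt (K0 : Type) [Field K0] [IsAlgClosed K0] [CharZero K0] : ABT K0 := by
  intro A _ _ _ _ T hT hint a b _
  obtain ⟨i, h1, h2, h3⟩ := brg hT hint
  obtain ⟨k, hk⟩ := @H77.UB.halt K0 A _ _ _ _ _ _ i h1 h2 h3 a b
  exact ⟨k, hk k le_rfl⟩

end H25.DP
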