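import Pool.Agent.H25.DP2.Def
import Pool.Agent.H67.KH.Krull

/-! # DP2.Irr : the affine surface `f(p) = 1` is irreducible (MATHLIB and `H67.KH.krull`)

`f - 1` is irreducible in the UFD `MvPolynomial (Fin 3) K0`: if `f - 1 = u v` with nonunits (total degrees `a, b > 0`, `a + b = 6`), the components of degree 6: `f = u' v'` with `u'`, `v'` the homogeneous components of top degree.  Two forms of positive degree in three variables have a common
nontrivial zero `c` (`H67.KH.krull`, `n = 2`), where `grad f c = 0` (Leibniz): contradiction to `Sm f`.  So `f - 1` is prime (it is nonzero and not a unit: `f ≠ 0` has degree 6) and the quotient is a domain. -/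

namespace H25.DP

open MvPolynomial in
private theorem irr_sum {K : Type} [Field K] {a : ℕ} {u : MvPolynomial (Fin 3) K} (hu : u.totalDegree ≤ a) :
    ∑ i ∈ Finset.range (a + 1), homogeneousComponent i u = u := by
  conv_rhs => rw [← sum_homogeneousComponent u]
  symm
  apply Finset.sum_subset
  · intro i hi
    rw [Finset.mem_range] at hi ⊢
    omega
  · intro i _ hi
    apply homogeneousComponent_eq_zero
    rw [Finset.mem_range] at hi
    omega

open MvPolynomial in
private theorem irr_top {K : Type} [Field K] {a b : ℕ} {u v : MvPolynomial (Fin 3) K} (hu : u.totalDegree ≤ a)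
    (hv : v.totalDegree ≤ b) :
    homogeneousComponent (a + b) (u * v) = homogeneousComponent a u * homogeneousComponent b v := by
  classical
  conv_lhs => rw [← irr_sum hu, ← irr_sum hv, Finset.sum_mul_sum, map_sum]
  have h1 : ∀ i j, homogeneousComponent (a + b) (homogeneousComponent i u * homogeneousComponent j v) =
      if a + b = i + j then homogeneousComponent i u * homogeneousComponent j v else 0 := fun i j =>
    homogeneousComponent_of_mem
      (((homogeneousComponent_isHomogeneous i u).mul (homogeneousComponent_isHomogeneous j v)))
  rw [Finset.sum_eq_single a]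
  · rw [map_sum, Finset.sum_eq_single b]
    · rw [h1, if_pos rfl]
    · intro j _ hj
      rw [h1, if_neg (by omega)]
    · intro hb
      exact absurd (Finset.mem_range.2 (Nat.lt_succ_self b)) hb
  · intro i hi hia
    rw [map_sum]
    apply Finset.sum_eq_zero
    intro j hj
    rw [Finset.mem_range] at hi hj
    rw [h1, if_neg (by omega)]
  · intro ha
    exact absurd (Finset.mem_range.2 (Nat.lt_succ_self a)) ha

open MvPolynomial in
private theorem irr_zero {K : Type} [Field K] {a : ℕ} (ha : 0 < a) (u : MvPolynomial (Fin 3) K) :
    eval 0 (homogeneousComponent a u) = 0 := by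
  rw [MvPolynomial.eval_zero, constantCoeff_eq, coeff_homogeneousComponent, if_neg]
  rw [map_zero]
  omega

open MvPolynomial in
theorem irr {K0 : Type} [Field K0] [IsAlgClosed K0] {f : MvPolynomial (Fin 3) K0} (hf : Sm f) : IsDomain (YR f) := by
  classical
  have hf0 : f ≠ 0 := by
    intro h0
    have h1 : (fun _ => 1 : Fin 3 → K0) ≠ 0 := fun h => one_ne_zero (congrFun h 0)
    apply hf.sm _ h1
    funext i
    simp [grad, ev, h0]
  have hd : f.totalDegree = 6 := hf.hom.totalDegree hf0
  have hd1 : (f - 1).totalDegree = 6 := by
    rw [sub_eq_add_neg, totalDegree_add_eq_left_of_totalDegree_lt, hd]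
    rw [totalDegree_neg, totalDegree_one, hd]
    norm_num
  have hg0 : f - 1 ≠ 0 := by
    intro h0
    rw [h0, totalDegree_zero] at hd1
    omega
  have hirr : Irreducible (f - 1) := by
    refine ⟨?_, ?_⟩
    · intro hunit
      obtain ⟨w, hw⟩ := hunit.exists_right_inv
      have hw0 : w ≠ 0 := by
        rintro rfl
        rw [mul_zero] at hw
        exact zero_ne_one hw
      have h1 := totalDegree_mul_of_isDomain hg0 hw0
      rw [hw, totalDegree_one, hd1] at h1
      omega
    · intro u v huv
      have hu0 : u ≠ 0 := by
        rintro rfl
        exact hg0 (by rw [huv, zero_mul])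
      have hv0 : v ≠ 0 := by
        rintro rfl
        exact hg0 (by rw [huv, mul_zero])
      have hab : u.totalDegree + v.totalDegree = 6 := by
        rw [← totalDegree_mul_of_isDomain hu0 hv0, ← huv, hd1]
      have hunit : ∀ w : MvPolynomial (Fin 3) K0, w ≠ 0 → w.totalDegree = 0 → IsUnit w := by
        intro w hw0 hw
        rw [totalDegree_eq_zero_iff_eq_C] at hw
        rw [hw] at hw0 ⊢
        have h2 : coeff 0 w ≠ 0 := by
          intro h3
          rw [h3, C_0] at hw0
          exact hw0 rfl
        exact (isUnit_iff_ne_zero.2 h2).map C
      by_cases ha : u.totalDegree = 0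
      · exact Or.inl (hunit u hu0 ha)
      by_cases hb : v.totalDegree = 0
      · exact Or.inr (hunit v hv0 hb)
      exfalso
      set u' := homogeneousComponent u.totalDegree u with hu'
      set v' := homogeneousComponent v.totalDegree v with hv'
      have hfact : f = u' * v' := by
        have h1 := irr_top (u := u) (v := v) le_rfl le_rfl
        rw [hab, ← huv, map_sub, homogeneousComponent_eq_self hf.hom, homogeneousComponent_eq_zero 6 (1 : MvPolynomial (Fin 3) K0)
          (by rw [totalDegree_one]; norm_num), sub_zero] at h1
        exact h1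
      obtain ⟨c, hc, hc0⟩ := H67.KH.krull (n := 2) ![u', v'] (by
        intro i
        fin_cases i
        · exact irr_zero (Nat.pos_of_ne_zero ha) u
        · exact irr_zero (Nat.pos_of_ne_zero hb) v)
      have h1 : eval c u' = 0 := hc0 0
      have h2 : eval c v' = 0 := hc0 1
      apply hf.sm c hc
      funext i
      have e : ∀ (q : MvPolynomial (Fin 3) K0), ev q c = eval c q := by
        intro q
        unfold ev
        rw [← coe_aeval_eq_eval]
        rfl
      change ev (pderiv i f) c = 0
      rw [e, hfact, Derivation.leibniz, map_add, smul_eq_mul, smul_eq_mul, map_mul, map_mul, h1, h2, zero_mul, zero_mul, add_zero]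
  have hprime : Prime (f - 1) := hirr.prime
  have : (Ideal.span ({f - 1} : Set (MvPolynomial (Fin 3) K0))).IsPrime := (Ideal.span_singleton_prime hg0).2 hprime
  exact Ideal.Quotient.isDomain _

end H25.DP
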