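import Pool.Agent.H25.DP.Main
import Pool.Agent.H77.AF.SqS

/-! # DP2.Rep : representation of the points by the elliptic surfaces of the frames; `a_P × a_P` is torsion (about 120 lines)

`rep`: as in the proof of `main` (`Pool/Agent/H25/DP/Main.lean`): `comps`, `uni`, `cover`, `scale`.  `A` is one of the rings `MvPolynomial (Fin 10) K0 ⧸ p j`.
`sqX`: `rep`.  First case: `kill1` (`exists_mul`: `mul z = prodM z`).  Second case: `sqS y` (its class is torsion), `push_pd` as in `one_comp` (so `phi (single ![y, y] 1) = pr2 ... ![y, y]`, which is `mul 2 (fun i => aX (toX y))` by `pr2_eq`): `prodM ![aX Q, aX Q]` is torsion for `Q = toX r hr y`; replace `aX Q` by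
`aX P` in both places (`MultilinearMap`, the differences are torsion classes: `inv_rat`, `kill1`). -/

namespace H25.DP

open H68.BB (Om Place Rd tt)
open H77.AF

variable {K0 : Type} [Field K0] [IsAlgClosed K0] [CharZero K0] {f : MvPolynomial (Fin 3) K0}

theorem rep (hf : Sm f) {K : Type} [Field K] [IsAlgClosed K] [Algebra K0 K] (P : XP f K) :
    ((Finsupp.single (fun _ => P) 1 - Finsupp.single (fun _ => P.inv) 1 : Cyc (xpd K f) 1) ∈ RatEq (xpd K f) 1) ∨
      ∃ (p : Ideal (MvPolynomial (Fin 10) K0)) (r : Frm f (MvPolynomial (Fin 10) K0 ⧸ p)) (hr : r.Nd)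
        (y : SP K0 (MvPolynomial (Fin 10) K0 ⧸ p) K r.a r.b),
        (∀ x : MvPolynomial (Fin 10) K0 ⧸ p, IsIntegral (Algebra.adjoin K0 r.ent) x) ∧
        (Finsupp.single (fun _ => P) 1 - Finsupp.single (fun _ => toX r hr y) 1 : Cyc (xpd K f) 1) ∈ RatEq (xpd K f) 1 := by
  obtain ⟨n, p, r, hp, hcr, hent, -, hcov⟩ := comps hf
  have hNd : ∀ j, (r j).Nd := fun j => by
    have := hp j
    have : IsDomain (MvPolynomial (Fin 10) K0 ⧸ p j) := Ideal.Quotient.isDomain _
    exact uni hf (r j) (hcr j)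
  have hch : CharZero K := charZero_of_injective_algebraMap (algebraMap K0 K).injective
  rcases cover hf P with h | ⟨r', x, y, c, hr', hc, hy, hpi, hzi⟩
  · exact Or.inl h
  · right
    obtain ⟨j, φ, hφ⟩ := hcov K r' hr'
    subst hφ
    refine ⟨p j, r j, hNd j, ⟨φ, x, y, hy⟩, fun x => ?_, ?_⟩
    · have h2 : x ∈ Algebra.adjoin K0 (r j).ent := hent j x
      exact isIntegral_algebraMap (R := Algebra.adjoin K0 (r j).ent) (A := MvPolynomial (Fin 10) K0 ⧸ p j) (x := ⟨x, h2⟩)
    · refine scale (c := c⁻¹) (inv_ne_zero hc) ?_ ?_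
      · intro l
        change x * φ ((r j).d l) + 1 * φ ((r j).e l) = c⁻¹ * P.p l
        rw [hpi l, inv_mul_cancel_left₀ hc, one_mul]
        rfl
      · change (φ (r j).s * x + φ (r j).t) * y = c⁻¹ ^ 3 * P.z
        rw [hzi, ← mul_assoc, ← mul_pow, inv_mul_cancel₀ hc, one_pow, one_mul]
        rfl

private theorem rep_two {M N : Type} [AddCommGroup M] [AddCommGroup N] (mul : MultilinearMap ℤ (fun _ : Fin 2 => M) N)
    (a b : M) : mul ![a, a] = mul ![a - b, a] + mul ![b, a - b] + mul ![b, b] := by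
  have h1 := mul.map_update_add ![a, a] 0 (a - b) b
  have h2 := mul.map_update_add ![b, a] 1 (a - b) b
  have e1 : Function.update (![a, a] : Fin 2 → M) 0 (a - b + b) = ![a, a] := by
    rw [sub_add_cancel]
    funext i
    fin_cases i <;> rfl
  have e2 : Function.update (![a, a] : Fin 2 → M) 0 (a - b) = ![a - b, a] := by
    funext i
    fin_cases i <;> rfl
  have e3 : Function.update (![a, a] : Fin 2 → M) 0 b = ![b, a] := by
    funext i
    fin_cases i <;> rfl
  have e4 : Function.update (![b, a] : Fin 2 → M) 1 (a - b + b) = ![b, a] := by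
    rw [sub_add_cancel]
    funext i
    fin_cases i <;> rfl
  have e5 : Function.update (![b, a] : Fin 2 → M) 1 (a - b) = ![b, a - b] := by
    funext i
    fin_cases i <;> rfl
  have e6 : Function.update (![b, a] : Fin 2 → M) 1 b = ![b, b] := by
    funext i
    fin_cases i <;> rfl
  rw [e1, e2, e3] at h1
  rw [e4, e5, e6] at h2
  rw [h1, h2, add_assoc]

private theorem rep_upD {K : Type} [Field K] {D : PD K} (P Q : D.X) :
    (up (Finsupp.single P 1 - Finsupp.single Q 1 : Cyc1 D) : Cyc D 1) =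
      Finsupp.single (fun _ => P) 1 - Finsupp.single (fun _ => Q) 1 := by
  unfold up
  rw [map_sub, Finsupp.mapDomain.addMonoidHom_apply, Finsupp.mapDomain.addMonoidHom_apply, Finsupp.mapDomain_single,
    Finsupp.mapDomain_single]

private theorem rep_up2 {K : Type} [Field K] {D : PD K} (P P' Q Q' : D.X) :
    (up ((Finsupp.single P 1 - Finsupp.single P' 1 : Cyc1 D) - (Finsupp.single Q 1 - Finsupp.single Q' 1 : Cyc1 D)) :
      Cyc D 1) = (Finsupp.single (fun _ => P) 1 - Finsupp.single (fun _ => Q) 1 : Cyc D 1) -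
        (Finsupp.single (fun _ => P') 1 - Finsupp.single (fun _ => Q') 1 : Cyc D 1) := by
  rw [map_sub, rep_upD, rep_upD]
  abel

omit [IsAlgClosed K0] [CharZero K0] in
private theorem rep_act {K : Type} [Field K] [Algebra K0 K] {A : Type} [CommRing A] [Algebra K0 A]
    (r : Frm f A) (hr : r.Nd) (σ : Om K ≃ₐ[RatFunc K] Om K) (y : SP K0 A (Om K) r.a r.b) :
    (xpd K f).act σ (toX r hr y) = toX r hr ((surf K0 K A r.a r.b).act σ y) := by
  refine XP.ext ?_ ?_
  · funext i
    change σ (y.x * y.φ (r.d i) + 1 * y.φ (r.e i)) = σ y.x * σ (y.φ (r.d i)) + 1 * σ (y.φ (r.e i))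
    rw [map_add, map_mul, map_mul, map_one]
  · change σ ((y.φ r.s * y.x + y.φ r.t) * y.y) = (σ (y.φ r.s) * σ y.x + σ (y.φ r.t)) * σ y.y
    rw [map_mul, map_add, map_mul]

private theorem rep_sq (hf : Sm f) {K : Type} [Field K] [IsAlgClosed K] [Algebra K0 K] {A : Type} [CommRing A]
    [Algebra K0 A] (r : Frm f A) (hr : r.Nd) (hA : ∀ x : A, IsIntegral (Algebra.adjoin K0 r.ent) x)
    (y : SP K0 A K r.a r.b) {mul : ∀ k : ℕ, MultilinearMap ℤ (fun _ : Fin k => Cyc1 (xpd K f)) (Cyc (xpd K f) k)}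
    (hm : ∀ k, IsPr (mul k)) : mul 2 ![aX (toX r hr y), aX (toX r hr y)] ∈ tor (RatEq (xpd K f) 2) := by
  have hch : CharZero K := charZero_of_injective_algebraMap (algebraMap K0 K).injective
  have h0 : (Finsupp.single ![y, y] 1 : Cyc (surf K0 K A r.a r.b) 2) ∈ tor (RatEq (surf K0 K A r.a r.b) 2) :=
    ⟨2, two_pos, sqS y⟩
  have h1 := push_pd (D := surf K0 K A r.a r.b) (D' := xpd K f) (fun P => toX r hr P) (fun P => (toX r hr P).inv)
    (fun P => toX r hr P) (fun P => (toX r hr P).inv) ?_ ?_ (fun π y x hyx => spi r hr hyx)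
    (fun π y x hyx => sp_inv (spi r hr hyx)) (fun π y => prp hf.hom π y)
    (fun π y xp xm ho hp hm => le_tor _ (off_x hf r hr hA ho hp hm)) h0
  · have h2 : phi (surf K0 K A r.a r.b) (D' := xpd K f) (fun P => toX r hr P) (fun P => (toX r hr P).inv) 2
        (Finsupp.single ![y, y] 1) = mul 2 ![aX (toX r hr y), aX (toX r hr y)] := by
      refine (phi_single (D := surf K0 K A r.a r.b) (D' := xpd K f) (fun P => toX r hr P)
        (fun P => (toX r hr P).inv) _ 1).trans ?_
      rw [one_smul]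
      refine (pr2_eq hm (fun P => toX r hr P) (fun P => (toX r hr P).inv) ![y, y]).trans ?_
      refine congrArg (mul 2) ?_
      funext i
      fin_cases i <;> rfl
    exact Eq.mp (congrArg (fun w => w ∈ tor (RatEq (xpd K f) 2)) h2) h1
  · intro σ y
    exact rep_act r hr σ y
  · intro σ y
    have h3 : (xpd K f).act σ (toX r hr y).inv = XP.inv ((xpd K f).act σ (toX r hr y)) :=
      XP.ext rfl (map_neg σ _)
    exact h3.trans (congrArg XP.inv (rep_act r hr σ y))

theorem sqX (hf : Sm f) {K : Type} [Field K] [IsAlgClosed K] [Algebra K0 K] (P : XP f K) :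
    prodM ![aX P, aX P] ∈ tor (RatEq (xpd K f) 2) := by
  choose mul hmul using fun k => exists_mul (xpd K f) k
  have hm : ∀ k, IsPr (mul k) := fun k => (hmul k).2
  rw [← (hmul 2).1]
  rcases rep hf P with h | ⟨p, r, hr, y, hA, h⟩
  · refine kill1 (hm 2) _ (i := 0) ?_
    refine le_tor _ ?_
    have h1 := rep_upD (D := xpd K f) P P.inv
    exact Eq.mp (congrArg (fun w => w ∈ RatEq (xpd K f) 1) h1.symm) h
  · have h1 : up (aX P - aX (toX r hr y)) ∈ tor (RatEq (xpd K f) 1) := by
      refine le_tor _ ?_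
      have h2 := (RatEq (xpd K f) 1).sub_mem h (inv_rat h)
      have h3 := rep_up2 (D := xpd K f) P P.inv (toX r hr y) (toX r hr y).inv
      exact Eq.mp (congrArg (fun w => w ∈ RatEq (xpd K f) 1) h3.symm) h2
    rw [rep_two (mul 2) (aX P) (aX (toX r hr y))]
    refine AddSubgroup.add_mem _ (AddSubgroup.add_mem _ ?_ ?_) (rep_sq hf r hr hA y hm)
    · exact kill1 (hm 2) _ (i := 0) h1
    · exact kill1 (hm 2) _ (i := 1) h1

end H25.DP
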