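import Pool.Agent.H25.DP2.Spl
import Pool.Agent.H25.DP2.Rep
import Pool.Agent.H25.DP2.Crv
import Pool.Agent.H25.DP2.ExNe
import Pool.Agent.H77.AF.MainL

/-! # DP2.Main2 : products of zero-cycles of degree zero on a curve of a double plane are torsion -/

namespace H25.DP

open H68.BB (Om Place Rd tt)
open H77.AF

variable {K0 : Type} [Field K0] {f : MvPolynomial (Fin 3) K0}

/-- the function `G(p, 1)` on the surface `f(p) = 1` -/
noncomputable def gY (f : MvPolynomial (Fin 3) K0) (G : MvPolynomial (Fin 4) K0) : YR f :=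
  MvPolynomial.aeval ![yx f 0, yx f 1, yx f 2, 1] G

private theorem gY_ev (hf : f.IsHomogeneous 6) {F : Type} [Field F] [Algebra K0 F] (G : MvPolynomial (Fin 4) K0)
    (y : YR f →ₐ[K0] F) : y (gY f G) = evG G (ptY hf y) := by
  unfold gY evG
  rw [MvPolynomial.comp_aeval_apply]
  congr 2
  funext i
  fin_cases i
  · rfl
  · rfl
  · rfl
  · exact map_one y

/-- the point of `f(p) = 1` with given coordinates -/
private theorem exists_y {F : Type} [Field F] [Algebra K0 F] {p : Fin 3 → F} (hp : ev f p = 1) :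
    ∃ y : YR f →ₐ[K0] F, ∀ i, y (yx f i) = p i := by
  refine ⟨Ideal.Quotient.liftₐ _ (MvPolynomial.aeval p) ?_, ?_⟩
  · intro a ha
    rw [Ideal.mem_span_singleton'] at ha
    obtain ⟨b, rfl⟩ := ha
    rw [map_mul, map_sub, map_one]
    change _ * (ev f p - 1) = 0
    rw [hp, sub_self, mul_zero]
  · intro i
    change MvPolynomial.aeval p (MvPolynomial.X i) = p i
    exact MvPolynomial.aeval_X p i

/-- values of a weighted homogeneous form at proportional points -/
private theorem evG_scale {F : Type} [Field F] [Algebra K0 F] {G : MvPolynomial (Fin 4) K0} {w : ℕ}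
    (hG : MvPolynomial.IsWeightedHomogeneous wts G w) {P P' : XP f F} {c : F} (h : ∀ i, P'.p i = c * P.p i)
    (hz : P'.z = c ^ 3 * P.z) : evG G P' = c ^ w * evG G P := by
  have hv : P'.vec = fun i => c ^ wts i * P.vec i := by
    funext i
    fin_cases i
    · change P'.p 0 = c ^ 1 * P.p 0
      rw [pow_one, h]
    · change P'.p 1 = c ^ 1 * P.p 1
      rw [pow_one, h]
    · change P'.p 2 = c ^ 1 * P.p 2
      rw [pow_one, h]
    · exact hz
  unfold evG
  rw [hv]
  rw [MvPolynomial.aeval_def, MvPolynomial.aeval_def, MvPolynomial.eval₂_eq', MvPolynomial.eval₂_eq', Finset.mul_sum]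
  refine Finset.sum_congr rfl fun d hd => ?_
  have h1 := hG (MvPolynomial.mem_support_iff.1 hd)
  have h2 : ∏ i, (c ^ wts i * P.vec i) ^ d i = c ^ w * ∏ i, P.vec i ^ d i := by
    rw [← h1, Finsupp.weight_apply, Finsupp.sum_fintype d (fun i c => c • wts i) (fun _ => zero_smul _ _),
      ← Finset.prod_pow_eq_pow_sum, ← Finset.prod_mul_distrib]
    refine Finset.prod_congr rfl fun i _ => ?_
    rw [mul_pow, ← pow_mul, smul_eq_mul, mul_comm (d i)]
  rw [h2]
  ring

/-- `aX P` is, up to rational equivalence, zero or one of the letters `aY y` -/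
private theorem letter (hf : f.IsHomogeneous 6) {K : Type} [Field K] [IsAlgClosed K] [Algebra K0 K]
    {G : MvPolynomial (Fin 4) K0} {w : ℕ} (hG : MvPolynomial.IsWeightedHomogeneous wts G w) (P : XP f K)
    (hP : evG G P = 0) :
    ∃ u ∈ AddSubgroup.closure {u : Cyc1 (xpd K f) | ∃ y : YR f →ₐ[K0] K, y (gY f G) = 0 ∧ u = aY hf y},
      up (aX P - u) ∈ RatEq (xpd K f) 1 := by
  by_cases hz : P.z = 0
  · refine ⟨0, AddSubgroup.zero_mem _, ?_⟩
    have h1 : P.inv = P := by
      refine XP.ext rfl ?_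
      change -P.z = P.z
      rw [hz, neg_zero]
    rw [aX_eq, h1, sub_self, sub_self, map_zero]
    exact (RatEq (xpd K f) 1).zero_mem
  · obtain ⟨c, hc⟩ := IsAlgClosed.exists_pow_nat_eq (P.z)⁻¹ (n := 3) (by norm_num)
    have hc0 : c ≠ 0 := by
      rintro rfl
      rw [zero_pow (by norm_num)] at hc
      exact (inv_ne_zero hz) hc.symm
    have hp : ev f (fun i => c * P.p i) = 1 := by
      rw [ev_smul hf, ← P.eq]
      have : c ^ 6 = (c ^ 3) ^ 2 := by ring
      rw [this, hc, ← mul_pow, inv_mul_cancel₀ hz, one_pow]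
    obtain ⟨y, hy⟩ := exists_y hp
    have hyz : (ptY hf y).z = c ^ 3 * P.z := by
      rw [hc, inv_mul_cancel₀ hz]
      rfl
    refine ⟨aY hf y, AddSubgroup.subset_closure ?_, ?_⟩
    · refine ⟨y, ?_, rfl⟩
      rw [gY_ev hf, evG_scale hG (P := P) (c := c) hy hyz, hP, mul_zero]
    · have h1 := scale (P := P) (P' := ptY hf y) hc0 hy hyz
      have h2 := inv_rat h1
      have h3 : up (aX P - aY hf y) = (sgc P - sgc (ptY hf y)) - (sgc P.inv - sgc (ptY hf y).inv) := by
        unfold aY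
        rw [aX_eq, aX_eq, map_sub, map_sub, map_sub, up_sg, up_sg, up_sg, up_sg]
        abel
      rw [h3]
      exact (RatEq (xpd K f) 1).sub_mem h1 h2

theorem v1x [IsAlgClosed K0] [CharZero K0] (hall : ABT K0) (hf : Sm f) {G : MvPolynomial (Fin 4) K0} {w : ℕ}
    (hG : MvPolynomial.IsWeightedHomogeneous wts G w) (hne : ∃ P : XP f K0, evG G P ≠ 0) :
    ∃ M : ℕ, 0 < M ∧ ∀ (K : Type) [Field K] [IsAlgClosed K] [Algebra K0 K] (z : Fin M → Cyc1 (xpd K f)),
      (∀ i, deg (z i) = 0) → (∀ i, ∀ P : XP f K, P ∈ (z i).support → evG G P = 0) →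
      prodM z ∈ tor (RatEq (xpd K f) M) := by
  classical
  obtain ⟨N, hN⟩ := main hall hf
  obtain ⟨P0, hP0⟩ := hne
  have hG' : gY f G ≠ 0 := by
    obtain ⟨p, hp, hpG⟩ := exists_ne hf hG hP0
    obtain ⟨y, hy⟩ := exists_y hp
    intro h0
    apply hpG
    have h1 := gY_ev hf.hom G y
    rw [h0, map_zero] at h1
    have h2 : (ptY hf.hom y).vec = ![p 0, p 1, p 2, 1] := by
      funext i
      fin_cases i
      · exact hy 0
      · exact hy 1
      · exact hy 2
      · rfl
    unfold evG at h1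
    rw [h2] at h1
    exact h1.symm
  obtain ⟨g, hg⟩ := crv hf hG'
  obtain ⟨m, hm⟩ : ∃ m, m = g * N + 1 := ⟨_, rfl⟩
  refine ⟨m, by omega, ?_⟩
  intro K _ _ _ z hdeg hsupp
  have hex := fun k => exists_mul (xpd K f) k
  choose mul hmul hpr using hex
  let L : Set (Cyc1 (xpd K f)) := {u | ∃ y : YR f →ₐ[K0] K, y (gY f G) = 0 ∧ u = aY hf.hom y}
  let L' : Set (Cyc1 (xpd K f)) := {u | ∃ y : YR f →ₐ[K0] K, u = aY hf.hom y}
  have hL : ∀ x : Fin m → Cyc1 (xpd K f), (∀ i, x i ∈ AddSubgroup.closure L) → prodM x ∈ tor (RatEq (xpd K f) m) := by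
    intro x hx
    refine mainL (D := xpd K f) (m := m) (g := g) (k := N) (by omega) (L := L) (L' := L') ?_ ?_ ?_ ?_ x hx
    · rintro u ⟨y, _, rfl⟩
      exact ⟨y, rfl⟩
    · rintro u ⟨y, rfl⟩
      exact sqX hf (ptY hf.hom y)
    · intro u hu
      choose y _ hy using hu
      have h1 := alt_up (P := fun i => ptY hf.hom (y i)) (ι := Fin.castSucc) (Fin.castSucc_injective N)
        (hN K (fun i => ptY hf.hom (y (Fin.castSucc i))))
      have h2 : ∑ σ : Equiv.Perm (Fin (N + 1)), (Equiv.Perm.sign σ : ℤ) • prodM (fun i => u (σ i)) =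
          alt (fun i => ptY hf.hom (y i)) := by
        unfold alt
        refine Finset.sum_congr rfl fun σ _ => ?_
        rw [pr_mul hpr, ← hmul]
        congr 2
        funext i
        exact hy (σ i)
      rw [h2]
      exact h1
    · intro u hu hinj
      choose y hy0 hy using hu
      obtain ⟨J, c, v, hc, h1⟩ := hg K y (fun i j hij => hinj (by rw [hy i, hy j, hij])) hy0
      refine ⟨J, c, fun l => aY hf.hom (v l), hc, fun l => ⟨v l, rfl⟩, ?_⟩
      have h2 : (∑ i ∈ J, u i) = ∑ i ∈ J, aY hf.hom (y i) := Finset.sum_congr rfl fun i _ => hy i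
      rw [h2]
      exact h1
  -- decomposition of the cycles
  have hlet : ∀ x : Cyc1 (xpd K f), ∀ D : Set (XP f K), (∀ P ∈ D, evG G P = 0) →
      x ∈ AddSubgroup.closure {u : Cyc1 (xpd K f) | ∃ P ∈ D, u = aX P} →
      ∃ u ∈ AddSubgroup.closure L, up (x - u) ∈ RatEq (xpd K f) 1 := by
    intro x D hD hx
    induction hx using AddSubgroup.closure_induction with
    | mem x hx =>
      obtain ⟨P, hP, rfl⟩ := hx
      exact letter hf.hom hG P (hD P hP)
    | zero => exact ⟨0, AddSubgroup.zero_mem _, by rw [sub_zero, map_zero]; exact AddSubgroup.zero_mem _⟩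
    | add x y _ _ hx hy =>
      obtain ⟨u, hu, h1⟩ := hx
      obtain ⟨v, hv, h2⟩ := hy
      refine ⟨u + v, AddSubgroup.add_mem _ hu hv, ?_⟩
      have h3 : x + y - (u + v) = (x - u) + (y - v) := by abel
      rw [h3, map_add]
      exact AddSubgroup.add_mem _ h1 h2
    | neg x _ hx =>
      obtain ⟨u, hu, h1⟩ := hx
      refine ⟨-u, AddSubgroup.neg_mem _ hu, ?_⟩
      have h3 : -x - -u = -(x - u) := by abel
      rw [h3, map_neg]
      exact AddSubgroup.neg_mem _ h1
  have hdec : ∀ i, ∃ u ∈ AddSubgroup.closure L, up ((2 : ℤ) • z i - u) ∈ RatEq (xpd K f) 1 := by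
    intro i
    obtain ⟨x, t, hxt, hx, ht⟩ := split (hdeg i)
    obtain ⟨u, hu, h1⟩ := hlet x {P | P ∈ (z i).support} (fun P hP => hsupp i P hP) hx
    refine ⟨u, hu, ?_⟩
    have h2 : (2 : ℤ) • z i - u = (x - u) + t := by
      have h3 : (2 : ℤ) • z i = (2 : ℕ) • z i := by exact_mod_cast (natCast_zsmul (z i) 2)
      rw [h3, hxt]
      abel
    rw [h2, map_add]
    exact AddSubgroup.add_mem _ h1 ht
  choose u hu hzu using hdec
  have h1 := hL u hu
  have h2 := mul_change (hpr m) (z := fun i => (2 : ℤ) • z i) (w := u) (fun i => le_tor _ (hzu i))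
  rw [hmul m u] at h2
  have h3 := (tor (RatEq (xpd K f) m)).add_mem h2 h1
  rw [sub_add_cancel, (mul m).map_smul_univ (fun _ => (2 : ℤ)) z, Finset.prod_const, Finset.card_univ, Fintype.card_fin,
    hmul] at h3
  have h4 : (2 : ℤ) ^ m • prodM z = (2 ^ m : ℕ) • prodM z := by
    exact_mod_cast (natCast_zsmul (prodM z) (2 ^ m))
  rw [h4] at h3
  exact tor_sat (Nat.pos_of_ne_zero (pow_ne_zero _ two_ne_zero)) h3

end H25.DP
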