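import Pool.Agent.H25.DP2.CnX
import Pool.Agent.H25.DP2.Def

/-! # DP2.Spl : zero-cycles of degree zero in terms of the `a_P = P - ι P` -/

namespace H25.DP

open H68.BB (Om Place Rd tt)
open H77.AF

variable {K0 : Type} [Field K0] {K : Type} [Field K] [Algebra K0 K] {f : MvPolynomial (Fin 3) K0}

/-- the zero-cycle `P` -/
noncomputable def sg (P : XP f K) : Cyc1 (xpd K f) := Finsupp.single P 1

/-- the zero-cycle `P` on `X^1` -/
noncomputable def sgc (P : XP f K) : Cyc (xpd K f) 1 := Finsupp.single (fun _ => P) 1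

theorem up_sg (P : XP f K) : up (sg P) = sgc P := Finsupp.mapDomain_single

theorem aX_eq (P : XP f K) : aX P = sg P - sg P.inv := rfl

theorem sum_sg (z : Cyc1 (xpd K f)) : z = ∑ P ∈ z.support, z P • sg P := by
  conv_lhs => rw [← Finsupp.sum_single z]
  refine Finset.sum_congr rfl fun P _ => ?_
  unfold sg
  refine Eq.symm ((Finsupp.smul_single (z P) P (1 : ℤ)).trans ?_)
  rw [smul_eq_mul, mul_one]

theorem split [IsAlgClosed K] {z : Cyc1 (xpd K f)} (hz : deg z = 0) :
    ∃ w t : Cyc1 (xpd K f), 2 • z = w + t ∧ w ∈ AddSubgroup.closure {u : Cyc1 (xpd K f) | ∃ P ∈ z.support, u = aX P} ∧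
      up t ∈ RatEq (xpd K f) 1 := by
  classical
  refine ⟨∑ P ∈ z.support, z P • aX P, ∑ P ∈ z.support, z P • (sg P + sg (XP.inv P)), ?_, ?_, ?_⟩
  · rw [← Finset.sum_add_distrib]
    conv_lhs => rw [sum_sg z]
    rw [Finset.smul_sum]
    refine Finset.sum_congr rfl fun P _ => ?_
    rw [aX_eq, ← smul_add]
    have h2 : ∀ x y : Cyc1 (xpd K f), x - y + (x + y) = (2 : ℕ) • x := fun x y => by
      rw [two_smul]
      abel
    rw [h2, smul_comm]
  · refine AddSubgroup.sum_mem _ fun P hP => AddSubgroup.zsmul_mem _ (AddSubgroup.subset_closure ?_) _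
    exact ⟨P, hP, rfl⟩
  · by_cases hne : z.support.Nonempty
    · obtain ⟨P0, _⟩ := hne
      have h1 : ∑ P ∈ z.support, z P = 0 := hz
      have h3 : up (∑ P ∈ z.support, z P • (sg P + sg (XP.inv P))) =
          ∑ P ∈ z.support, z P • ((sgc P + sgc (XP.inv P)) - (sgc P0 + sgc (XP.inv P0))) := by
        rw [map_sum]
        have h4 : ∑ P ∈ z.support, z P • (sgc P0 + sgc (XP.inv P0)) = 0 := by
          rw [← Finset.sum_smul, h1, zero_smul]
        simp only [smul_sub, Finset.sum_sub_distrib]
        rw [h4, sub_zero]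
        refine Finset.sum_congr rfl fun P _ => ?_
        rw [map_zsmul, map_add, up_sg, up_sg]
      rw [h3]
      exact AddSubgroup.sum_mem _ fun P _ => AddSubgroup.zsmul_mem _ (con P P0) _
    · rw [Finset.not_nonempty_iff_eq_empty.1 hne, Finset.sum_empty, map_zero]
      exact (RatEq (xpd K f) 1).zero_mem

/-- change of the factors by classes which are torsion -/
theorem mul_change {m : ℕ} {mul : MultilinearMap ℤ (fun _ : Fin m => Cyc1 (xpd K f)) (Cyc (xpd K f) m)} (hm : IsPr mul)
    {z w : Fin m → Cyc1 (xpd K f)} (h : ∀ i, up (z i - w i) ∈ tor (RatEq (xpd K f) 1)) :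
    mul z - mul w ∈ tor (RatEq (xpd K f) m) := by
  classical
  have key : ∀ s : Finset (Fin m), mul (fun i => if i ∈ s then z i else w i) - mul w ∈ tor (RatEq (xpd K f) m) := by
    intro s
    induction s using Finset.induction_on with
    | empty =>
      simp only [Finset.notMem_empty, if_false, sub_self]
      exact (tor (RatEq (xpd K f) m)).zero_mem
    | insert a s ha ih =>
      let y : Fin m → Cyc1 (xpd K f) := fun i => if i ∈ s then z i else w i
      have h1 : (fun i => if i ∈ insert a s then z i else w i) = Function.update y a (z a) := by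
        funext i
        by_cases hi : i = a
        · subst hi
          rw [Function.update_self, if_pos (Finset.mem_insert_self _ _)]
        · rw [Function.update_of_ne hi]
          simp only [y, Finset.mem_insert, hi, false_or]
      have h2 : y = Function.update y a (w a) := by
        funext i
        by_cases hi : i = a
        · subst hi
          rw [Function.update_self]
          exact if_neg ha
        · rw [Function.update_of_ne hi]
      have h3 : mul (fun i => if i ∈ insert a s then z i else w i) - mul y ∈ tor (RatEq (xpd K f) m) := by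
        have h5 : mul y = mul (Function.update y a (w a)) := congrArg mul h2
        rw [h1, h5, ← MultilinearMap.map_update_sub]
        refine kill1 hm _ (i := a) ?_
        rw [Function.update_self]
        exact h a
      have h4 := (tor (RatEq (xpd K f) m)).add_mem h3 ih
      rw [sub_add_sub_cancel] at h4
      exact h4
  have h5 := key Finset.univ
  simpa only [Finset.mem_univ, if_true] using h5

/-- the antisymmetrised exterior product of zero-cycles -/
noncomputable def altZ {k : ℕ} (z : Fin k → Cyc1 (xpd K f)) : Cyc (xpd K f) k :=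
  ∑ σ : Equiv.Perm (Fin k), (Equiv.Perm.sign σ : ℤ) • prodM (fun i => z (σ i))

theorem pr_mul {mul : ∀ k : ℕ, MultilinearMap ℤ (fun _ : Fin k => Cyc1 (xpd K f)) (Cyc (xpd K f) k)} (hm : ∀ k, IsPr (mul k))
    {k : ℕ} (P : Fin k → XP f K) : pr P = mul k (fun i => aX (P i)) :=
  pr2_eq hm (fun P : XP f K => P) XP.inv P

/-- the antisymmetrised products of zero-cycles of degree zero -/
theorem alt_z [IsAlgClosed K] {N : ℕ} (h : ∀ P : Fin N → XP f K, alt P ∈ tor (RatEq (xpd K f) N))
    (z : Fin N → Cyc1 (xpd K f)) (hz : ∀ i, deg (z i) = 0) : altZ z ∈ tor (RatEq (xpd K f) N) := by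
  classical
  have hex := fun k => exists_mul (xpd K f) k
  choose mul hmul hpr using hex
  have hsp := fun i => split (hz i)
  choose w t hwt hw ht using hsp
  -- twice the cycles
  have h2 : altZ (fun i => 2 • z i) = (2 ^ N : ℕ) • altZ z := by
    unfold altZ
    rw [Finset.smul_sum]
    refine Finset.sum_congr rfl fun σ _ => ?_
    rw [← hmul, ← hmul, smul_comm]
    congr 1
    have h3 := (mul N).map_smul_univ (fun _ => (2 : ℤ)) (fun i => z (σ i))
    rw [Finset.prod_const, Finset.card_univ, Fintype.card_fin] at h3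
    have h4 : (fun i => (2 : ℤ) • z (σ i)) = fun i => (2 : ℕ) • z (σ i) := by
      funext i
      exact_mod_cast (natCast_zsmul (z (σ i)) 2)
    rw [h4] at h3
    rw [h3]
    exact_mod_cast (natCast_zsmul (mul N fun i => z (σ i)) (2 ^ N))
  have h3 : altZ w ∈ tor (RatEq (xpd K f) N) := by
    let M : MultilinearMap ℤ (fun _ : Fin N => Cyc1 (xpd K f)) (Cyc (xpd K f) N) :=
      ∑ σ : Equiv.Perm (Fin N), (Equiv.Perm.sign σ : ℤ) • (mul N).domDomCongr σ⁻¹
    have hM : ∀ y, M y = ∑ σ : Equiv.Perm (Fin N), (Equiv.Perm.sign σ : ℤ) • mul N (fun i => y (σ⁻¹ i)) := fun y => by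
      simp only [M, sum_apply, smul_apply, MultilinearMap.domDomCongr_apply]
    have hM' : ∀ y, M y = altZ y := fun y => by
      rw [hM]
      unfold altZ
      refine Finset.sum_bij (fun σ _ => σ⁻¹) (fun _ _ => Finset.mem_univ _) (fun _ _ _ _ h => inv_injective h)
        (fun σ _ => ⟨σ⁻¹, Finset.mem_univ _, inv_inv σ⟩) fun σ _ => ?_
      rw [Equiv.Perm.sign_inv, hmul]
    rw [← hM']
    refine multi_mem (tor (RatEq (xpd K f) N)) M (fun i => {u : Cyc1 (xpd K f) | ∃ P ∈ (z i).support, u = aX P}) ?_ w hw
    intro y hy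
    choose P _ hP using hy
    rw [hM']
    have h4 : altZ y = alt P := by
      unfold altZ alt
      refine Finset.sum_congr rfl fun σ _ => ?_
      rw [pr_mul hpr, ← hmul]
      congr 2
      funext i
      exact hP (σ i)
    rw [h4]
    exact h P
  have h4 : altZ (fun i => 2 • z i) - altZ w ∈ tor (RatEq (xpd K f) N) := by
    unfold altZ
    rw [← Finset.sum_sub_distrib]
    refine AddSubgroup.sum_mem _ fun σ _ => ?_
    rw [← smul_sub, ← hmul, ← hmul]
    refine AddSubgroup.zsmul_mem _ (mul_change (hpr N) fun i => ?_) _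
    have h5 : 2 • z (σ i) - w (σ i) = t (σ i) := by
      rw [hwt, add_sub_cancel_left]
    change up (2 • z (σ i) - w (σ i)) ∈ _
    rw [h5]
    exact le_tor _ (ht (σ i))
  have h5 := (tor (RatEq (xpd K f) N)).add_mem h4 h3
  rw [sub_add_cancel, h2] at h5
  exact tor_sat (Nat.pos_of_ne_zero (pow_ne_zero _ two_ne_zero)) h5

end H25.DP
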